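import Mathlib
import Pool.Agent.N781.S.Stm

/-!
# Project S (helper781), task S_CE (helper319): conditional expectations
-/

set_option autoImplicit false

namespace Pool.Agent.N319.S

open Finset Pool.Agent.N675 Pool.Agent.N781.A Pool.Agent.N781.S

/-- the value on a cell -/
noncomputable def cv (M D : ℕ) (c : ℤ → ℂ) (k : ℤ × ℤ) : ℂ :=
  (∑ e ∈ (Icc (1 : ℤ) D).filter (fun e => ky M D e = k), c e) /
      ((Icc (1 : ℤ) D).filter (fun e => ky M D e = k)).card

variable {M D : ℕ} {c : ℤ → ℂ}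

lemma St_eq {d : ℤ} (hd : d ∈ Icc (1 : ℤ) D) : St M D c d = cv M D c (ky M D d) := by
  rw [St, if_pos (mem_Icc.1 hd)]
  rfl

lemma wf_eq {d : ℤ} (hd : d ∈ Icc (1 : ℤ) D) : wf M D c d = (c d - St M D c d) / 2 := by
  rw [wf, if_pos (mem_Icc.1 hd)]

lemma cv_norm (hc : ∀ m, ‖c m‖ ≤ 1) (k : ℤ × ℤ) : ‖cv M D c k‖ ≤ 1 := by
  unfold cv
  rw [norm_div, Complex.norm_natCast]
  refine div_le_one_of_le₀ ?_ (Nat.cast_nonneg _)
  refine (norm_sum_le _ _).trans ((sum_le_sum fun e _ => hc e).trans ?_)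
  simp

lemma St_norm (hc : ∀ m, ‖c m‖ ≤ 1) (d : ℤ) : ‖St M D c d‖ ≤ 1 := by
  by_cases hd : d ∈ Icc (1 : ℤ) D
  · rw [St_eq hd]
    exact cv_norm hc _
  · rw [St, if_neg (fun h => hd (mem_Icc.2 h)), norm_zero]
    exact zero_le_one

lemma wf_norm (hc : ∀ m, ‖c m‖ ≤ 1) (d : ℤ) : ‖wf M D c d‖ ≤ 1 := by
  by_cases hd : d ∈ Icc (1 : ℤ) D
  · rw [wf_eq hd, norm_div]
    have h1 := norm_sub_le (c d) (St M D c d)
    have h2 := hc d
    have h3 := St_norm (M := M) (D := D) hc d
    rw [Complex.norm_ofNat]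
    linarith
  · rw [wf, if_neg (fun h => hd (mem_Icc.2 h)), norm_zero]
    exact zero_le_one

lemma orth (M D : ℕ) (c : ℤ → ℂ) (φ : ℤ × ℤ → ℂ) :
    ∑ d ∈ Icc (1 : ℤ) D, (c d - St M D c d) * φ (ky M D d) = 0 := by
  have h1 : ∑ d ∈ Icc (1 : ℤ) D, St M D c d * φ (ky M D d) =
      ∑ d ∈ Icc (1 : ℤ) D, c d * φ (ky M D d) := by
    have h2 : ∀ d ∈ Icc (1 : ℤ) D, St M D c d * φ (ky M D d) =
        ∑ e ∈ Icc (1 : ℤ) D, if ky M D e = ky M D d then
          c e / ((Icc (1 : ℤ) D).filter (fun f => ky M D f = ky M D e)).card * φ (ky M D e)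
          else 0 := by
      intro d hd
      rw [St_eq hd, cv, ← sum_filter, sum_div, sum_mul]
      refine sum_congr rfl fun e he => ?_
      rw [(mem_filter.1 he).2]
    rw [sum_congr rfl h2, sum_comm]
    refine sum_congr rfl fun e he => ?_
    rw [← sum_filter, sum_const, nsmul_eq_mul]
    have h3 : (Icc (1 : ℤ) D).filter (fun d => ky M D e = ky M D d) =
        (Icc (1 : ℤ) D).filter (fun f => ky M D f = ky M D e) := by
      refine filter_congr fun d _ => ?_
      exact eq_comm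
    rw [h3]
    have h4 : (((Icc (1 : ℤ) D).filter (fun f => ky M D f = ky M D e)).card : ℂ) ≠ 0 := by
      rw [Nat.cast_ne_zero]
      have h5 : e ∈ (Icc (1 : ℤ) D).filter (fun f => ky M D f = ky M D e) :=
        mem_filter.2 ⟨he, rfl⟩
      exact card_ne_zero_of_mem h5
    field_simp
  simp only [sub_mul, sum_sub_distrib]
  rw [h1, sub_self]

/-- the same with a function given on the interval only -/
lemma orth' {ψ : ℤ → ℂ} (φ : ℤ × ℤ → ℂ) (h : ∀ d ∈ Icc (1 : ℤ) D, ψ d = φ (ky M D d)) :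
    ∑ d ∈ Icc (1 : ℤ) D, (c d - St M D c d) * ψ d = 0 := by
  rw [← orth M D c φ]
  exact sum_congr rfl fun d hd => by rw [h d hd]

/-- the coarse key as a function of the fine one -/
lemma ky_mul {t : ℕ} (hD : 0 < D) (ht : 0 < t) (d : ℤ) :
    ky M D d = ((ky (M * t) D d).1 / t, (ky (M * t) D d).2 % M) := by
  unfold ky
  ext
  · simp only
    push_cast
    rw [← mul_assoc, Int.ediv_ediv_of_nonneg (by positivity),
      Int.mul_ediv_mul_of_pos_left _ _ (by exact_mod_cast ht)]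
  · simp only
    push_cast
    rw [Int.mod_mul_right_mod]

/-- Pythagoras -/
lemma pyth {s : Finset ℤ} {f g : ℤ → ℂ} (h : ∑ d ∈ s, f d * (starRingEnd ℂ) (g d) = 0) :
    ∑ d ∈ s, ‖f d + g d‖ ^ 2 = ∑ d ∈ s, ‖f d‖ ^ 2 + ∑ d ∈ s, ‖g d‖ ^ 2 := by
  have h1 : ∀ d, ‖f d + g d‖ ^ 2 = ‖f d‖ ^ 2 + ‖g d‖ ^ 2 +
      2 * (f d * (starRingEnd ℂ) (g d)).re := by
    intro d
    rw [← Complex.normSq_eq_norm_sq, ← Complex.normSq_eq_norm_sq, ← Complex.normSq_eq_norm_sq,
      Complex.normSq_add]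
  simp only [h1, sum_add_distrib]
  rw [← mul_sum, ← Complex.re_sum, h]
  simp

theorem ce : S_CE := by
  intro M D c hM hD hc
  refine ⟨St_norm hc, wf_norm hc, orth M D c, ?_, ?_⟩
  · -- the correlation with the difference
    have h1 : ∑ d ∈ Icc (1 : ℤ) D, (c d - St M D c d) * (starRingEnd ℂ) (St M D c d) = 0 :=
      orth' (fun k => (starRingEnd ℂ) (cv M D c k)) fun d hd => by rw [St_eq hd]
    have h2 : ∑ d ∈ Icc (1 : ℤ) D, (starRingEnd ℂ) (c d - St M D c d) * St M D c d = 0 := by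
      have := congrArg (starRingEnd ℂ) h1
      rw [map_sum, map_zero] at this
      rw [← this]
      refine sum_congr rfl fun d _ => ?_
      rw [map_mul, Complex.conj_conj]
    have h3 : ∑ d ∈ Icc (1 : ℤ) D, (starRingEnd ℂ) (wf M D c d) * c d =
        ((∑ d ∈ Icc (1 : ℤ) D, ‖c d - St M D c d‖ ^ 2 : ℝ) : ℂ) / 2 := by
      have h4 : ∀ d ∈ Icc (1 : ℤ) D, (starRingEnd ℂ) (wf M D c d) * c d =
          (((‖c d - St M D c d‖ ^ 2 : ℝ) : ℂ)) / 2 +
            ((starRingEnd ℂ) (c d - St M D c d) * St M D c d) / 2 := by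
        intro d hd
        rw [wf_eq hd, map_div₀, Complex.conj_ofNat]
        have h5 : ((‖c d - St M D c d‖ ^ 2 : ℝ) : ℂ) =
            (starRingEnd ℂ) (c d - St M D c d) * (c d - St M D c d) := by
          rw [← Complex.normSq_eq_norm_sq, Complex.normSq_eq_conj_mul_self]
        rw [h5]
        ring
      rw [sum_congr rfl h4, sum_add_distrib, ← sum_div, ← sum_div, h2, zero_div, add_zero]
      push_cast
      rfl
    unfold av avr
    rw [h3]
    push_cast
    ring
  · intro M' hM' hdvd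
    obtain ⟨t, rfl⟩ := hdvd
    have ht : 0 < t := by
      rcases Nat.eq_zero_or_pos t with h | h
      · rw [h] at hM'
        simp at hM'
      · exact h
    -- the difference is orthogonal to functions of the coarse cell
    have o1 : ∑ d ∈ Icc (1 : ℤ) D, (St (M * t) D c d - St M D c d) *
        (starRingEnd ℂ) (St M D c d) = 0 := by
      have a1 : ∑ d ∈ Icc (1 : ℤ) D, (c d - St M D c d) * (starRingEnd ℂ) (St M D c d) = 0 :=
        orth' (fun k => (starRingEnd ℂ) (cv M D c k)) fun d hd => by rw [St_eq hd]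
      have a2 : ∑ d ∈ Icc (1 : ℤ) D, (c d - St (M * t) D c d) *
          (starRingEnd ℂ) (St M D c d) = 0 :=
        orth' (fun k => (starRingEnd ℂ) (cv M D c (k.1 / t, k.2 % M))) fun d hd => by
          rw [St_eq hd, ky_mul hD ht]
      have a3 := congrArg₂ (fun x y : ℂ => x - y) a1 a2
      beta_reduce at a3
      rw [← sum_sub_distrib, sub_zero] at a3
      rw [← a3]
      refine sum_congr rfl fun d _ => ?_
      ring
    have o2 : ∑ d ∈ Icc (1 : ℤ) D, (c d - St (M * t) D c d) *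
        (starRingEnd ℂ) (St (M * t) D c d - St M D c d) = 0 :=
      orth' (fun k => (starRingEnd ℂ) (cv (M * t) D c k - cv M D c (k.1 / t, k.2 % M)))
        fun d hd => by rw [St_eq hd, St_eq hd, ky_mul (M := M) hD ht]
    have p1 := pyth o1
    have p2 := pyth o2
    simp only [sub_add_cancel, sub_add_sub_cancel] at p1 p2
    have hDr : (0 : ℝ) < D := by exact_mod_cast hD
    constructor
    · have e1 : ∑ d ∈ Icc (1 : ℤ) D, ‖wf (M * t) D c d - wf M D c d‖ ^ 2 =
          (∑ d ∈ Icc (1 : ℤ) D, ‖St (M * t) D c d - St M D c d‖ ^ 2) / 4 := by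
        rw [sum_div]
        refine sum_congr rfl fun d hd => ?_
        rw [wf_eq hd, wf_eq hd]
        have e2 : (c d - St (M * t) D c d) / 2 - (c d - St M D c d) / 2 =
            -((St (M * t) D c d - St M D c d) / 2) := by ring
        rw [e2, norm_neg, norm_div, Complex.norm_ofNat]
        ring
      unfold avr
      rw [e1, p1]
      field_simp
      ring
    · unfold avr
      refine div_le_div_of_nonneg_right ?_ hDr.le
      rw [p2]
      have : 0 ≤ ∑ d ∈ Icc (1 : ℤ) D, ‖St (M * t) D c d - St M D c d‖ ^ 2 :=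
        sum_nonneg fun d _ => by positivity
      linarith

end Pool.Agent.N319.S
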