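import Mathlib
import Pool.Agent.N781.S.Stm
import Pool.Agent.N319.S.CE

/-!
# Project S (helper781), tasks S_STMAJ and S_WSMALL (helper319)
-/

set_option autoImplicit false

namespace Pool.Agent.N319.S

open Finset Pool.Agent.N675 Pool.Agent.N781.A Pool.Agent.N781.S

/-- the index of the interval -/
def ui (M D : ℕ) (d : ℤ) : ℤ := (d - 1) * M / D

lemma ky_eq (M D : ℕ) (d : ℤ) : ky M D d = (ui M D d, d % M) := rfl

lemma ui_mono {M D : ℕ} (hD : 0 < D) {d e : ℤ} (h : d ≤ e) : ui M D d ≤ ui M D e := by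
  unfold ui
  have hD' : (0 : ℤ) < D := by exact_mod_cast hD
  refine Int.ediv_le_ediv hD' (mul_le_mul_of_nonneg_right (by linarith) (by positivity))

lemma ui_close {M D : ℕ} (hD : 0 < D) {d e : ℤ} (h : ui M D d = ui M D e) :
    (d - e) * M < D := by
  unfold ui at h
  have hD' : (0 : ℤ) < D := by exact_mod_cast hD
  have h1 := Int.mul_ediv_add_emod ((d - 1) * M) D
  have h2 := Int.mul_ediv_add_emod ((e - 1) * M) D
  have h3 := Int.emod_lt_of_pos ((d - 1) * M) hD'
  have h4 := Int.emod_nonneg ((e - 1) * M) hD'.ne'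
  rw [h] at h1
  linarith

lemma ui_nonneg {M D : ℕ} {d : ℤ} (h : 1 ≤ d) : 0 ≤ ui M D d := by
  unfold ui
  exact Int.ediv_nonneg (mul_nonneg (by linarith) (by positivity)) (by positivity)

lemma ui_lt {M D : ℕ} (hM : 0 < M) (hD : 0 < D) {d : ℤ} (h : d ≤ D) : ui M D d < M := by
  unfold ui
  have hD' : (0 : ℤ) < D := by exact_mod_cast hD
  have hM' : (0 : ℤ) < M := by exact_mod_cast hM
  rw [Int.ediv_lt_iff_lt_mul hD']
  nlinarith

/-- the part of a cell up to `D'` -/
noncomputable def cell (M D D' : ℕ) (k : ℤ × ℤ) : Finset ℤ := (Icc (1 : ℤ) D').filter fun d => ky M D d = k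

lemma cell_conv {M D D' : ℕ} (hD : 0 < D) {k : ℤ × ℤ} {x y z : ℤ} (hx : x ∈ cell M D D' k)
    (hy : y ∈ cell M D D' k) (h1 : x ≤ z) (h2 : z ≤ y) (h3 : z % M = x % M) :
    z ∈ cell M D D' k := by
  unfold cell at *
  rw [mem_filter, mem_Icc] at *
  refine ⟨⟨hx.1.1.trans h1, h2.trans hy.1.2⟩, ?_⟩
  rw [← hx.2, ky_eq, ky_eq, h3]
  have a := ui_mono (M := M) hD h1
  have b := ui_mono (M := M) hD h2
  have e := hx.2.trans hy.2.symm
  rw [ky_eq, ky_eq] at e
  have e1 := (Prod.mk.inj e).1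
  have : ui M D z = ui M D x := by linarith
  rw [this]

lemma cell_step {M D D' : ℕ} (hM : 0 < M) {k : ℤ × ℤ} {x y : ℤ} (hx : x ∈ cell M D D' k)
    (hy : y ∈ cell M D D' k) (h : x < y) : x + M ≤ y := by
  unfold cell at hx hy
  have e := (mem_filter.1 hx).2.trans (mem_filter.1 hy).2.symm
  rw [ky_eq, ky_eq] at e
  have e2 := (Prod.mk.inj e).2
  have h1 : (M : ℤ) ∣ y - x := Int.ModEq.dvd e2
  have := Int.le_of_dvd (by linarith) h1
  linarith

/-- the exponential sum over a cell -/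
lemma cell_sum {M D D' : ℕ} (hM : 0 < M) (hD : 0 < D) (k : ℤ × ℤ) (θ : ℝ) :
    ‖eR (M * θ) - 1‖ * ‖∑ d ∈ cell M D D' k, eR (d * θ)‖ ≤ 2 := by
  set A := cell M D D' k with hA
  set B := A.image (fun d => d + (M : ℤ)) with hB
  have h1 : (eR (M * θ) - 1) * ∑ d ∈ A, eR (d * θ) =
      ∑ d ∈ B, eR (d * θ) - ∑ d ∈ A, eR (d * θ) := by
    rw [hB, sum_image (fun x _ y _ h => by simpa using h), sub_mul, one_mul, mul_sum]
    congr 1
    refine sum_congr rfl fun d _ => ?_
    rw [← eR_add]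
    congr 1
    push_cast
    ring
  rw [← norm_mul, h1, ← sum_sdiff_sub_sum_sdiff]
  have h2 : (B \ A).card ≤ 1 := by
    rw [card_le_one]
    intro a ha b hb
    rw [mem_sdiff, hB, mem_image] at ha hb
    obtain ⟨⟨x, hx, rfl⟩, hxA⟩ := ha
    obtain ⟨⟨y, hy, rfl⟩, hyA⟩ := hb
    rcases lt_trichotomy x y with h | h | h
    · exact absurd (cell_conv hD hx hy (by linarith [hM]) (cell_step hM hx hy h) (by simp)) hxA
    · rw [h]
    · exact absurd (cell_conv hD hy hx (by linarith [hM]) (cell_step hM hy hx h) (by simp)) hyA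
  have h3 : (A \ B).card ≤ 1 := by
    rw [card_le_one]
    intro a ha b hb
    rw [mem_sdiff, hB, mem_image] at ha hb
    have key : ∀ x y : ℤ, x ∈ A → y ∈ A → x < y → ∃ z ∈ A, z + (M : ℤ) = y := by
      intro x y hx hy h
      refine ⟨y - M, ?_, by ring⟩
      have h4 := cell_step hM hx hy h
      have h5 : (y - M) % (M : ℤ) = x % M := by
        have e := (mem_filter.1 hx).2.trans (mem_filter.1 hy).2.symm
        rw [ky_eq, ky_eq] at e
        have e2 := (Prod.mk.inj e).2
        rw [Int.sub_emod_right, e2]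
      exact cell_conv hD hx hy (by linarith) (by linarith [hM]) h5
    rcases lt_trichotomy a b with h | h | h
    · exact absurd (key a b ha.1 hb.1 h) hb.2
    · exact h
    · exact absurd (key b a hb.1 ha.1 h) ha.2
  have h4 : ∀ s : Finset ℤ, ‖∑ d ∈ s, eR (d * θ)‖ ≤ s.card := by
    intro s
    refine (norm_sum_le _ _).trans ?_
    simp [norm_eR]
  have h5 := norm_sub_le (∑ d ∈ B \ A, eR (d * θ)) (∑ d ∈ A \ B, eR (d * θ))
  have h6 := h4 (B \ A)
  have h7 := h4 (A \ B)
  have h8 : ((B \ A).card : ℝ) ≤ 1 := by exact_mod_cast h2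
  have h9 : ((A \ B).card : ℝ) ≤ 1 := by exact_mod_cast h3
  linarith

/-- in terms of the distance to the nearest integer -/
lemma cell_sum' {M D D' : ℕ} (hM : 0 < M) (hD : 0 < D) (k : ℤ × ℤ) (θ : ℝ) :
    |(M : ℝ) * θ - round ((M : ℝ) * θ)| * ‖∑ d ∈ cell M D D' k, eR (d * θ)‖ ≤ 1 / 2 := by
  have h1 := cell_sum (D' := D') hM hD k θ
  have h2 := le_norm_eR_sub_one (abs_sub_round ((M : ℝ) * θ))
  have h3 : eR ((M : ℝ) * θ - round ((M : ℝ) * θ)) = eR ((M : ℝ) * θ) := by
    have := eR_add_int ((M : ℝ) * θ - round ((M : ℝ) * θ)) (round ((M : ℝ) * θ))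
    rw [sub_add_cancel] at this
    exact this.symm
  rw [h3] at h2
  have h4 := norm_nonneg (∑ d ∈ cell M D D' k, eR (d * θ))
  nlinarith [mul_le_mul_of_nonneg_right h2 h4]

theorem stmaj : S_STMAJ := by
  intro M δ hM hδ
  refine ⟨max M ⌈(M : ℝ) ^ 2 / δ ^ 2⌉₊, ?_⟩
  intro D D' θ c hc hD hD'D hδD hbig
  have hDr : (0 : ℝ) < D := by exact_mod_cast hD
  have hD'r : (0 : ℝ) < D' := lt_of_lt_of_le (by positivity) hδD
  have hMr : (0 : ℝ) < M := by exact_mod_cast hM
  set ν := |(M : ℝ) * θ - round ((M : ℝ) * θ)| with hν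
  have hν0 : 0 ≤ ν := abs_nonneg _
  refine ⟨M, hM, le_max_left _ _, round ((M : ℝ) * θ), ?_⟩
  have h1 : δ * D' ≤ ‖∑ d ∈ Icc (1 : ℤ) D', St M D c d * eR (d * θ)‖ := by
    unfold av at hbig
    rw [norm_div, Complex.norm_natCast, le_div_iff₀ hD'r] at hbig
    exact hbig
  set I : Finset (ℤ × ℤ) := Ico (0 : ℤ) M ×ˢ Ico (0 : ℤ) M with hI
  have hcard : (I.card : ℝ) = (M : ℝ) ^ 2 := by
    rw [hI, card_product]
    simp
    ring
  have h2 : ∑ d ∈ Icc (1 : ℤ) D', St M D c d * eR (d * θ) =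
      ∑ k ∈ I, cv M D c k * ∑ d ∈ cell M D D' k, eR (d * θ) := by
    rw [← sum_fiberwise_of_maps_to (s := Icc (1 : ℤ) D') (t := I) (g := ky M D)]
    · refine sum_congr rfl fun k _ => ?_
      rw [mul_sum]
      refine sum_congr rfl fun d hd => ?_
      obtain ⟨hd1, hd2⟩ := mem_filter.1 hd
      rw [mem_Icc] at hd1
      rw [St_eq (mem_Icc.2 ⟨hd1.1, hd1.2.trans (by exact_mod_cast hD'D)⟩), hd2]
    · intro d hd
      rw [mem_Icc] at hd
      have hM' : (0 : ℤ) < M := by exact_mod_cast hM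
      rw [hI, mem_product, mem_Ico, mem_Ico, ky_eq]
      exact ⟨⟨ui_nonneg hd.1, ui_lt hM hD (hd.2.trans (by exact_mod_cast hD'D))⟩,
        Int.emod_nonneg _ hM'.ne', Int.emod_lt_of_pos _ hM'⟩
  have h3 : ν * (δ * D') ≤ (M : ℝ) ^ 2 / 2 := by
    calc ν * (δ * D') ≤ ν * ∑ k ∈ I, ‖∑ d ∈ cell M D D' k, eR (d * θ)‖ := by
          refine mul_le_mul_of_nonneg_left (h1.trans ?_) hν0
          rw [h2]
          refine (norm_sum_le _ _).trans (sum_le_sum fun k _ => ?_)
          rw [norm_mul]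
          exact mul_le_of_le_one_left (norm_nonneg _) (cv_norm hc k)
      _ = ∑ k ∈ I, ν * ‖∑ d ∈ cell M D D' k, eR (d * θ)‖ := mul_sum _ _ _
      _ ≤ ∑ _k ∈ I, (1 / 2 : ℝ) := sum_le_sum fun k _ => cell_sum' hM hD k θ
      _ = (M : ℝ) ^ 2 / 2 := by
          rw [sum_const, nsmul_eq_mul, hcard]
          ring
  have h4 : (M : ℝ) ^ 2 / δ ^ 2 ≤ ((max M ⌈(M : ℝ) ^ 2 / δ ^ 2⌉₊ : ℕ) : ℝ) := by
    refine (Nat.le_ceil _).trans ?_
    exact_mod_cast le_max_right _ _
  have h5 : ν * D ≤ (M : ℝ) ^ 2 / δ ^ 2 := by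
    rw [le_div_iff₀ (by positivity)]
    have h6 : ν * (δ * (δ * D)) ≤ ν * (δ * D') :=
      mul_le_mul_of_nonneg_left (mul_le_mul_of_nonneg_left hδD hδ.le) hν0
    have h7 : 0 ≤ (M : ℝ) ^ 2 := by positivity
    nlinarith
  change ν ≤ _
  rw [le_div_iff₀ hDr]
  exact h5.trans h4

/-- the exponential varies little on a cell -/
lemma cell_var {M D q Q : ℕ} (hM : 0 < M) (hD : 0 < D) (hq : 1 ≤ q) (hqM : q ∣ M) {θ : ℝ}
    {j : ℤ} (hj : |(q : ℝ) * θ - j| ≤ (Q : ℝ) / D) {d e : ℤ} (h : ky M D d = ky M D e) :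
    ‖eR (d * θ) - eR (e * θ)‖ ≤ 2 * Real.pi * Q / M := by
  have hDr : (0 : ℝ) < D := by exact_mod_cast hD
  have hMr : (0 : ℝ) < M := by exact_mod_cast hM
  have hqr : (1 : ℝ) ≤ q := by exact_mod_cast hq
  rw [ky_eq, ky_eq] at h
  obtain ⟨h1, h2⟩ := Prod.mk.inj h
  obtain ⟨t, ht⟩ : (M : ℤ) ∣ d - e := Int.ModEq.dvd h2.symm
  obtain ⟨m, hm⟩ := hqM
  have h3 : |(d - e : ℝ)| * M ≤ D := by
    have a := ui_close hD h1
    have b := ui_close hD h1.symm
    have a' : ((d - e) * M : ℝ) < D := by exact_mod_cast a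
    have b' : ((e - d) * M : ℝ) < D := by exact_mod_cast b
    rcases abs_cases (d - e : ℝ) with ⟨h4, -⟩ | ⟨h4, -⟩
    · rw [h4]; exact a'.le
    · rw [h4]
      have : -(d - e : ℝ) * M = (e - d) * M := by ring
      rw [this]; exact b'.le
  have hq0 : (q : ℝ) ≠ 0 := by linarith
  have e1 : (d : ℝ) * θ = (e * θ + (d - e : ℝ) / q * ((q : ℝ) * θ - j)) + ((m * t * j : ℤ) : ℝ) := by
    have e2 : (d - e : ℝ) = q * m * t := by
      have : ((d - e : ℤ) : ℝ) = ((M : ℤ) * t : ℤ) := by rw [ht]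
      push_cast at this
      rw [this, hm]
      push_cast
      ring
    push_cast
    rw [e2]
    field_simp
    linear_combination θ * e2
  rw [e1, eR_add_int]
  refine (norm_eR_sub_le _ _).trans ?_
  have e3 : (e : ℝ) * θ + (d - e : ℝ) / q * ((q : ℝ) * θ - j) - e * θ =
      (d - e : ℝ) / q * ((q : ℝ) * θ - j) := by ring
  rw [e3, abs_mul, abs_div, Nat.abs_cast]
  have h5 : |(d - e : ℝ)| / q ≤ (D : ℝ) / M := by
    rw [le_div_iff₀ hMr]
    refine le_trans ?_ h3
    rw [div_mul_eq_mul_div]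
    exact div_le_self (by positivity) hqr
  have h6 : |(d - e : ℝ)| / q * |(q : ℝ) * θ - j| ≤ (D : ℝ) / M * ((Q : ℝ) / D) :=
    mul_le_mul h5 hj (abs_nonneg _) (by positivity)
  calc 2 * Real.pi * (|(d - e : ℝ)| / q * |(q : ℝ) * θ - j|)
      ≤ 2 * Real.pi * ((D : ℝ) / M * ((Q : ℝ) / D)) :=
        mul_le_mul_of_nonneg_left h6 (by positivity)
    _ = 2 * Real.pi * Q / M := by
        field_simp

open Classical in
/-- a representative value of the exponential on each cell -/
noncomputable def rp (M D : ℕ) (θ : ℝ) (k : ℤ × ℤ) : ℂ :=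
  if h : ∃ d : ℤ, ky M D d = k then eR (h.choose * θ) else 0

lemma rp_near {M D q Q : ℕ} (hM : 0 < M) (hD : 0 < D) (hq : 1 ≤ q) (hqM : q ∣ M) {θ : ℝ}
    {j : ℤ} (hj : |(q : ℝ) * θ - j| ≤ (Q : ℝ) / D) (d : ℤ) :
    ‖eR (d * θ) - rp M D θ (ky M D d)‖ ≤ 2 * Real.pi * Q / M := by
  have h : ∃ e : ℤ, ky M D e = ky M D d := ⟨d, rfl⟩
  rw [rp, dif_pos h]
  exact cell_var hM hD hq hqM hj h.choose_spec.symm

theorem wsmall : S_WSMALL := by
  intro Q δ hδ
  refine ⟨max Q (⌈(2 * Real.pi * Q + 2) / δ ^ 2⌉₊ + 1), ?_⟩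
  intro M hM hdvd D D' θ c hc hD hD'D hδD hmaj
  obtain ⟨q, hq1, hqQ, j, hj⟩ := hmaj
  have hDr : (0 : ℝ) < D := by exact_mod_cast hD
  have hD'r : (0 : ℝ) < D' := lt_of_lt_of_le (by positivity) hδD
  have hMr : (0 : ℝ) < M := by exact_mod_cast hM
  set i₀ := max Q (⌈(2 * Real.pi * Q + 2) / δ ^ 2⌉₊ + 1) with hi
  have hqM : q ∣ M :=
    (Nat.dvd_factorial (by omega) (hqQ.trans (le_max_left _ _))).trans hdvd
  have hMi : i₀ ≤ M := (Nat.self_le_factorial i₀).trans (Nat.le_of_dvd hM hdvd)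
  have hbig : (2 * Real.pi * Q + 2) / δ ^ 2 < M := by
    have a1 := Nat.le_ceil ((2 * Real.pi * Q + 2) / δ ^ 2)
    have a2 : ⌈(2 * Real.pi * Q + 2) / δ ^ 2⌉₊ + 1 ≤ M := (le_max_right _ _).trans hMi
    have a3 : ((⌈(2 * Real.pi * Q + 2) / δ ^ 2⌉₊ : ℕ) : ℝ) + 1 ≤ M := by exact_mod_cast a2
    linarith
  rcases lt_or_ge D M with hlt | hge
  · -- the cells are points
    have h0 : ∀ d : ℤ, wf M D c d = 0 := by
      intro d
      by_cases hd : d ∈ Icc (1 : ℤ) D
      · have h1 : (Icc (1 : ℤ) D).filter (fun e => ky M D e = ky M D d) = {d} := by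
          ext e
          rw [mem_filter, mem_singleton]
          constructor
          · rintro ⟨-, he⟩
            rw [ky_eq, ky_eq] at he
            have a := ui_close hD (Prod.mk.inj he).1
            have b := ui_close hD (Prod.mk.inj he).1.symm
            have hlt' : (D : ℤ) < M := by exact_mod_cast hlt
            have c1 : e - d < 1 := by
              by_contra hcon
              have : (1 : ℤ) * M ≤ (e - d) * M :=
                mul_le_mul_of_nonneg_right (by linarith) (by positivity)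
              linarith
            have c2 : d - e < 1 := by
              by_contra hcon
              have : (1 : ℤ) * M ≤ (d - e) * M :=
                mul_le_mul_of_nonneg_right (by linarith) (by positivity)
              linarith
            omega
          · rintro rfl
            exact ⟨hd, rfl⟩
        rw [wf_eq hd, St_eq hd, cv, h1]
        simp
      · rw [wf, if_neg (fun h => hd (mem_Icc.2 h))]
    unfold av
    simp only [h0, zero_mul, sum_const_zero, zero_div, norm_zero]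
    exact hδ
  · -- the main case
    have hgeR : (M : ℝ) ≤ D := by exact_mod_cast hge
    set u' := ui M D (D' : ℤ) with hu'
    set η := 2 * Real.pi * Q / M with hη
    have hη0 : 0 ≤ η := by positivity
    -- full cells
    have h1 : ‖∑ d ∈ (Icc (1 : ℤ) D').filter (fun d => ui M D d < u'),
        wf M D c d * eR (d * θ)‖ ≤ η * D := by
      have e1 : (Icc (1 : ℤ) D').filter (fun d => ui M D d < u') =
          (Icc (1 : ℤ) D).filter (fun d => ui M D d < u') := by
        ext d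
        rw [mem_filter, mem_filter, mem_Icc, mem_Icc]
        constructor
        · rintro ⟨⟨a, b⟩, h⟩
          exact ⟨⟨a, b.trans (by exact_mod_cast hD'D)⟩, h⟩
        · rintro ⟨⟨a, b⟩, h⟩
          refine ⟨⟨a, ?_⟩, h⟩
          by_contra hcon
          have := ui_mono (M := M) hD (not_le.1 hcon).le
          rw [← hu'] at this
          linarith
      rw [e1, sum_filter]
      have e2 : ∑ d ∈ Icc (1 : ℤ) D, wf M D c d *
          (if (ky M D d).1 < u' then rp M D θ (ky M D d) else 0) = 0 := by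
        have e3 := orth M D c (fun k => (if k.1 < u' then rp M D θ k else 0) / 2)
        refine Eq.trans (sum_congr rfl fun d hd => ?_) e3
        rw [wf_eq hd]
        ring
      have e5 : ∑ d ∈ Icc (1 : ℤ) D, (if ui M D d < u' then wf M D c d * eR (d * θ) else 0) =
          ∑ d ∈ Icc (1 : ℤ) D, ((if ui M D d < u' then wf M D c d * eR (d * θ) else 0) -
          wf M D c d * (if (ky M D d).1 < u' then rp M D θ (ky M D d) else 0)) := by
        rw [sum_sub_distrib, e2, sub_zero]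
      rw [e5]
      refine (norm_sum_le _ _).trans ?_
      have e4 : ∀ d ∈ Icc (1 : ℤ) D, ‖(if ui M D d < u' then wf M D c d * eR (d * θ) else 0) -
          wf M D c d * (if (ky M D d).1 < u' then rp M D θ (ky M D d) else 0)‖ ≤ η := by
        intro d _
        rw [ky_eq]
        by_cases h : ui M D d < u'
        · rw [if_pos h, if_pos h, ← mul_sub, norm_mul]
          exact (mul_le_of_le_one_left (norm_nonneg _) (wf_norm hc d)).trans
            (rp_near hM hD hq1 hqM hj d)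
        · rw [if_neg h, if_neg h, mul_zero, sub_zero, norm_zero]
          exact hη0
      refine (sum_le_sum e4).trans (le_of_eq ?_)
      rw [sum_const, nsmul_eq_mul, Int.card_Icc]
      simp
      ring
    -- the last interval
    have h2 : ‖∑ d ∈ (Icc (1 : ℤ) D').filter (fun d => ¬ ui M D d < u'),
        wf M D c d * eR (d * θ)‖ ≤ D / M + 1 := by
      set s := (Icc (1 : ℤ) D').filter (fun d => ¬ ui M D d < u') with hs
      have e1 : ‖∑ d ∈ s, wf M D c d * eR (d * θ)‖ ≤ s.card := by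
        refine (norm_sum_le _ _).trans ?_
        refine (sum_le_sum (g := fun _ => (1 : ℝ)) fun d _ => ?_).trans (by simp)
        rw [norm_mul, norm_eR, mul_one]
        exact wf_norm hc d
      refine e1.trans ?_
      have e2 : s ⊆ Icc ((D' : ℤ) - (D / M : ℕ)) D' := by
        intro d hd
        rw [hs, mem_filter, mem_Icc] at hd
        obtain ⟨⟨a, b⟩, h⟩ := hd
        rw [mem_Icc]
        refine ⟨?_, b⟩
        have h3 : ui M D d = u' := le_antisymm (ui_mono hD b) (not_lt.1 h)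
        have h4 := ui_close (d := (D' : ℤ)) (e := d) hD (hu' ▸ h3.symm)
        have h5 : (D' : ℤ) - d ≤ D / M := by
          rw [Int.le_ediv_iff_mul_le (by exact_mod_cast hM)]
          exact h4.le
        push_cast
        linarith
      have e3 := card_le_card e2
      rw [Int.card_Icc] at e3
      have e4 : s.card ≤ D / M + 1 := by
        have e7 : ∀ w : ℕ, ((D' : ℤ) + 1 - ((D' : ℤ) - (w : ℕ))).toNat = w + 1 := by
          intro w
          omega
        rwa [e7] at e3
      have e5 : ((D / M : ℕ) : ℝ) ≤ D / M := Nat.cast_div_le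
      have e6 : (s.card : ℝ) ≤ ((D / M : ℕ) : ℝ) + 1 := by exact_mod_cast e4
      linarith
    have h3 := sum_filter_add_sum_filter_not (Icc (1 : ℤ) D') (fun d => ui M D d < u')
      (fun d => wf M D c d * eR (d * θ))
    unfold av
    rw [norm_div, Complex.norm_natCast, div_lt_iff₀ hD'r, ← h3]
    have h4 := (norm_add_le _ _).trans (add_le_add h1 h2)
    refine lt_of_le_of_lt h4 ?_
    have h5 : η * D + (D / M + 1) ≤ (2 * Real.pi * Q + 2) / M * D := by
      have : (1 : ℝ) ≤ D / M := (one_le_div hMr).2 hgeR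
      have e : (2 * Real.pi * Q + 2) / M * D = η * D + (D / M + D / M) := by
        rw [hη]
        ring
      rw [e]
      linarith
    refine lt_of_le_of_lt h5 ?_
    have h6 : (2 * Real.pi * Q + 2) / M < δ ^ 2 := by
      rw [div_lt_iff₀ (by positivity)] at hbig
      rw [div_lt_iff₀ hMr]
      linarith
    calc (2 * Real.pi * Q + 2) / M * D < δ ^ 2 * D := mul_lt_mul_of_pos_right h6 hDr
      _ = δ * (δ * D) := by ring
      _ ≤ δ * D' := mul_le_mul_of_nonneg_left hδD hδ.le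

end Pool.Agent.N319.S
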